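import Pool.Agent.H51.WSC.FullDefs
import Pool.Agent.H51.WSC.UnivDefs
import Pool.Agent.H80.Circuit

/-!
# Weakly skew circuits: from `Pool.Agent.H80.Circuit` to the short definitions
-/

set_option autoImplicit false

namespace Pool.Agent.H51.WSC

open MvPolynomial

variable {K : Type} {σ V : Type}

/-- translation of labels -/
def toOld : Gate K σ V → Pool.Agent.H80.Gate K σ V
  | .var x => .var x
  | .const c => .const c
  | .add a => .add (a false) (a true)
  | .mul a => .mul (a false) (a true)

/-- translation of labels -/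
def toNew : Pool.Agent.H80.Gate K σ V → Gate K σ V
  | .var x => .var x
  | .const c => .const c
  | .add a b => .add (fun j => bif j then b else a)
  | .mul a b => .mul (fun j => bif j then b else a)

theorem toOld_toNew (g : Pool.Agent.H80.Gate K σ V) : toOld (toNew g) = g := by
  cases g <;> rfl

theorem tail_toOld (g : Gate K σ V) (j : Fin 2) (t : V) :
    (toOld g).tail j = some t ↔ Tail g (finTwoEquiv j) t := by
  have e0 : finTwoEquiv 0 = false := rfl
  have e1 : finTwoEquiv 1 = true := rfl
  cases g with
  | var x =>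
    constructor
    · intro h
      exact absurd h (by simp [toOld, Pool.Agent.H80.Gate.tail])
    · rintro ⟨a, h | h, _⟩ <;> exact absurd h (by simp)
  | const c =>
    constructor
    · intro h
      exact absurd h (by simp [toOld, Pool.Agent.H80.Gate.tail])
    · rintro ⟨a, h | h, _⟩ <;> exact absurd h (by simp)
  | add a =>
    constructor
    · intro h
      refine ⟨a, Or.inl rfl, ?_⟩
      fin_cases j
      · simpa [toOld, Pool.Agent.H80.Gate.tail, e0] using h
      · simpa [toOld, Pool.Agent.H80.Gate.tail, e1] using h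
    · rintro ⟨a', h | h, h2⟩
      · injection h with h
        subst h
        subst h2
        fin_cases j <;> rfl
      · exact absurd h (by simp)
  | mul a =>
    constructor
    · intro h
      refine ⟨a, Or.inr rfl, ?_⟩
      fin_cases j
      · simpa [toOld, Pool.Agent.H80.Gate.tail, e0] using h
      · simpa [toOld, Pool.Agent.H80.Gate.tail, e1] using h
    · rintro ⟨a', h | h, h2⟩
      · exact absurd h (by simp)
      · injection h with h
        subst h
        subst h2
        fin_cases j <;> rfl

theorem tail_toNew (g : Pool.Agent.H80.Gate K σ V) (j : Fin 2) (t : V) :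
    Tail (toNew g) (finTwoEquiv j) t ↔ g.tail j = some t := by
  rw [← tail_toOld, toOld_toNew]

theorem forall_bool_iff {p : Bool → Prop} : (∀ j : Bool, p j) ↔ ∀ j : Fin 2, p (finTwoEquiv j) :=
  ⟨fun h j => h _, fun h j => by
    have := h (finTwoEquiv.symm j)
    rwa [Equiv.apply_symm_apply] at this⟩

theorem exists_bool_iff {p : Bool → Prop} : (∃ j : Bool, p j) ↔ ∃ j : Fin 2, p (finTwoEquiv j) :=
  ⟨fun ⟨j, h⟩ => ⟨finTwoEquiv.symm j, by rwa [Equiv.apply_symm_apply]⟩, fun ⟨j, h⟩ => ⟨_, h⟩⟩

theorem path_iff (D : Pool.Agent.H80.Circuit K σ) (s t : D.V) :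
    Path (fun w => toNew (D.gate w)) s t ↔ D.Path s t := by
  unfold Path Pool.Agent.H80.Circuit.Path
  have hrel : (fun s t => ∃ j, Tail (toNew (D.gate t)) j s) =
      fun s t => ∃ j : Fin 2, (D.gate t).tail j = some s := by
    funext s t
    refine propext ?_
    rw [exists_bool_iff]
    exact exists_congr fun j => tail_toNew _ _ _
  rw [hrel]

theorem gate_of (D : Pool.Agent.H80.Circuit K σ) (w : D.V) (g : Gate K σ D.V)
    (h : toNew (D.gate w) = g) : D.gate w = toOld g := by
  rw [← toOld_toNew (D.gate w), h]

/-- A weakly skew circuit in the sense of `Pool.Agent.H80` gives one in the sense of `Computed`. -/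
theorem computed_of [CommSemiring K] (P : (V : Type) → (V → Gate K σ V) → Prop)
    (f : MvPolynomial σ K) (s : ℕ) (D : Pool.Agent.H80.Circuit K σ) (h1 : D.WeaklySkew)
    (h2 : D.Computes f) (h4 : D.size ≤ s) (hP : P D.V fun w => toNew (D.gate w)) :
    Computed P f s := by
  obtain ⟨val, h2, h3⟩ := h2
  obtain ⟨rank, hrank⟩ := D.acyclic
  refine ⟨D.V, D.fin, fun w => toNew (D.gate w), rank, D.out, val, h4, ?_, ?_, ?_, ?_, ?_, ?_,
    h3, ?_, hP⟩
  · intro w
    rw [forall_bool_iff]
    intro j t h
    exact hrank w j t ((tail_toNew _ _ _).1 h)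
  · intro t
    rw [D.out_iff t]
    refine forall_congr' fun w => ?_
    rw [forall_bool_iff]
    exact forall_congr' fun j => not_congr (tail_toNew _ _ _).symm
  · intro w x h
    rw [h2 w, gate_of D w _ h]
    rfl
  · intro w x h
    rw [h2 w, gate_of D w _ h]
    rfl
  · intro w a h
    rw [h2 w, gate_of D w _ h]
    rfl
  · intro w a h
    rw [h2 w, gate_of D w _ h]
    rfl
  · intro w a h
    have hg : D.gate w = .mul (a false) (a true) := gate_of D w _ h
    obtain ⟨j, t, h5, h6⟩ := h1 w _ _ hg
    have h7 : a (finTwoEquiv j) = t := by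
      rw [hg] at h5
      have e0 : finTwoEquiv 0 = false := rfl
      have e1 : finTwoEquiv 1 = true := rfl
      fin_cases j
      · simpa [Pool.Agent.H80.Gate.tail, e0] using h5
      · simpa [Pool.Agent.H80.Gate.tail, e1] using h5
    refine ⟨finTwoEquiv j, ?_⟩
    intro w'
    rw [forall_bool_iff]
    intro j' t' h8 h9 h10
    rw [h7] at h9 h10
    obtain ⟨h11, h12⟩ := h6 w' j' t' ((tail_toNew _ _ _).1 h8) ((path_iff _ _ _).1 h9)
      (fun h => h10 ((path_iff _ _ _).2 h))
    exact ⟨h11, by rw [h12]⟩

end Pool.Agent.H51.WSC
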