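import Mathlib

/-!
# Weakly skew circuits

Definitions for two theorems on MP_f18ce0_lc (`FullRank`, `UniversalRank`).
-/

set_option autoImplicit false

namespace Pool.Agent.H51.WSC

open MvPolynomial

/-- The label of a node of an arithmetic circuit over `K` in the variables `σ` with the set of nodes
`V`: a variable, a constant, or `+` or `×` together with the tails `a false` and `a true` of the two
incoming edges. -/
inductive Gate (K σ V : Type) : Type
  | var (x : σ) : Gate K σ V
  | const (c : K) : Gate K σ V
  | add (a : Bool → V) : Gate K σ V
  | mul (a : Bool → V) : Gate K σ V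

/-- `t` is the tail of the incoming edge number `j` of a node with label `g`. -/
def Tail {K σ V : Type} (g : Gate K σ V) (j : Bool) (t : V) : Prop :=
  ∃ a, (g = .add a ∨ g = .mul a) ∧ a j = t

/-- `Path gate s t`: there is a directed path (possibly of length zero) from `s` to `t`. -/
def Path {K σ V : Type} (gate : V → Gate K σ V) : V → V → Prop :=
  Relation.ReflTransGen fun s t => ∃ j, Tail (gate t) j s

/-- `f` is computed by a weakly skew circuit with at most `s` nodes and the property `P` (in the
claims: Circuit, WeaklySkew, Computes, size).

The circuit is a finite acyclic graph (`rank` decreases along the edges) whose only node of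
out-degree zero is `out`. It is weakly skew: each multiplication gate `w` has an incoming edge,
number `j`, with tail `a j`, such that all edges from the sub-circuit feeding it (the nodes with a
directed path to `a j`) to a node outside of this sub-circuit are the edge number `j` of `w`. -/
def Computed {K σ : Type} [CommSemiring K] (P : (V : Type) → (V → Gate K σ V) → Prop)
    (f : MvPolynomial σ K) (s : ℕ) : Prop :=
  ∃ (V : Type) (_ : Fintype V) (gate : V → Gate K σ V) (rank : V → ℕ) (out : V)
    (val : V → MvPolynomial σ K), Fintype.card V ≤ s ∧
    (∀ w j t, Tail (gate w) j t → rank t < rank w) ∧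
    (∀ t, t = out ↔ ∀ w j, ¬ Tail (gate w) j t) ∧
    (∀ w x, gate w = .var x → val w = X x) ∧
    (∀ w c, gate w = .const c → val w = C c) ∧
    (∀ w a, gate w = .add a → val w = val (a false) + val (a true)) ∧
    (∀ w a, gate w = .mul a → val w = val (a false) * val (a true)) ∧
    val out = f ∧
    (∀ w a, gate w = .mul a → ∃ j, ∀ w' j' t, Tail (gate w') j' t →
      Path gate t (a j) → ¬ Path gate w' (a j) → w' = w ∧ j' = j) ∧
    P V gate

end Pool.Agent.H51.WSC
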