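import Pool.Agent.H51.WSC.Circ
import Pool.Agent.H5.FR.Pub
import Pool.Agent.H5.FR.Final

/-!
# The theorem on full rank in terms of the short definitions
-/

set_option autoImplicit false

namespace Pool.Agent.H51.WSC

/-- Full rank with small syntactically multilinear weakly skew circuits. -/
theorem full_main : ∃ C : ℕ, ∀ (K : Type) [Field K] [Infinite K] (n : ℕ),
    ∃ f : MvPolynomial (Fin (2 * n)) K, Computed SyntacticallyMultilinear f ((n + 2) ^ C) ∧
      (∀ i, f.degreeOf i ≤ 1) ∧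
      ∀ Y : Finset (Fin (2 * n)), (pdMatrix f Y).rank = 2 ^ min Y.card (2 * n - Y.card) := by
  obtain ⟨C, hC⟩ := Pool.Agent.H5.FR.main_thm
  refine ⟨C, fun K _ _ n => ?_⟩
  obtain ⟨f, D, h1, h2, h3, h4, h5, h6⟩ := hC K n
  refine ⟨f, computed_of _ f _ D h1 h3 h4 ?_, h5, h6⟩
  intro w a hw i s t hs ht hp hq
  exact h2 w _ _ (gate_of D w _ hw) i s t (gate_of D s _ hs) (gate_of D t _ ht)
    ((path_iff D _ _).1 hp) ((path_iff D _ _).1 hq)

end Pool.Agent.H51.WSC
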