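import Pool.Agent.H51.WSC.Defs

/-!
# Syntactically multilinear circuits and partial derivative matrices (MP_f18ce0_lc)
-/

set_option autoImplicit false

namespace Pool.Agent.H51.WSC

/-- A circuit is syntactically multilinear: for each multiplication gate the sub-circuits feeding
its two predecessors have no variable in common. -/
def SyntacticallyMultilinear {K σ : Type} (V : Type) (gate : V → Gate K σ V) : Prop :=
  ∀ w a, gate w = .mul a → ∀ i s t, gate s = .var i → gate t = .var i →
    Path gate s (a false) → ¬ Path gate t (a true)

/-- The partial derivative matrix of `f` for the partition of the variables into `Y` and its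
complement. Rows: the sets `A` of variables in `Y`. Columns: the sets `B` of variables outside of
`Y`. Entry: the coefficient in `f` of the product of the variables in `A` and in `B`. -/
noncomputable def pdMatrix {K : Type} [CommRing K] {σ : Type} (f : MvPolynomial σ K)
    (Y : Finset σ) : Matrix (Finset {x // x ∈ Y}) (Finset {x // x ∉ Y}) K :=
  fun A B => f.coeff (∑ a ∈ A, Finsupp.single a.1 1 + ∑ b ∈ B, Finsupp.single b.1 1)

end Pool.Agent.H51.WSC
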