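import Pool.Agent.H51.WSC.Circ
import Pool.Agent.H5.FR2.Final
import Pool.Agent.H5.FR2.Pub

/-!
# The universal barrier in terms of the short definitions
-/

set_option autoImplicit false

namespace Pool.Agent.H51.WSC

/-- A universal barrier for rank methods. -/
theorem univ_main : ∃ C : ℕ, ∀ (n d : ℕ) (Θ : ℕ → RankMethod n d),
    ∃ f : MvPolynomial (Fin d × Fin n) ℂ, Computed SetMultilinearCircuit f ((n + d + 2) ^ C) ∧
      SetMultilinear f ∧
      ∀ (k : ℕ) (g : MvPolynomial (Fin d × Fin n) ℂ),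
        ((Θ k).matrix g).rank ≤ 3 * ((Θ k).matrix f).rank := by
  obtain ⟨C, hC⟩ := Pool.Agent.H5.FR2.main_thm
  refine ⟨C, fun n d Θ => ?_⟩
  obtain ⟨f, D, h1, h2, h3, h4, h5, h6⟩ := hC n d (fun k => (Θ k).x) (fun k => (Θ k).y)
    (fun k => (Θ k).A)
  refine ⟨f, computed_of _ f _ D h1 h3 h4 ?_, h5, h6⟩
  obtain ⟨S, hS1, hS2, hS3, hS4⟩ := h2
  refine ⟨fun v j => j ∈ S v, ?_, ?_, ?_, ?_⟩
  · intro v i a h j
    show j ∈ S v ↔ j = i
    rw [hS1 v i a (gate_of D v _ h), Finset.mem_singleton]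
  · intro v c h hc j
    show j ∉ S v
    rw [hS2 v c (gate_of D v _ h) hc]
    exact Finset.notMem_empty j
  · intro v a h b j
    obtain ⟨h7, h8⟩ := hS3 v _ _ (gate_of D v _ h)
    cases b
    · show j ∈ S (a false) ↔ j ∈ S v
      rw [h7]
    · show j ∈ S (a true) ↔ j ∈ S v
      rw [h8]
  · intro v a h j
    obtain ⟨h7, h8⟩ := hS4 v _ _ (gate_of D v _ h)
    refine ⟨fun h9 => ?_, ?_⟩
    · exact Finset.disjoint_left.1 h7 h9.1 h9.2
    · show j ∈ S v ↔ j ∈ S (a false) ∨ j ∈ S (a true)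
      rw [h8, Finset.mem_union]

end Pool.Agent.H51.WSC
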